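import Pool.Agent.Helper95.HS.Stmts

/-! Sheet HS, row FFX: the far field near a nucleus, with explicit powers of `d`. -/

set_option autoImplicit false

namespace Pool.Agent.Helper64.HS

open MeasureTheory Filter Pool.Agent.Helper95.PW Pool.Agent.Helper95.LN
open Pool.Agent.Helper95.HS

theorem nr_eq (y : R3) : nr y = ‖(WithLp.toLp 2 y : EuclideanSpace ℝ (Fin 3))‖ := by
  rw [EuclideanSpace.norm_eq, nr]
  simp [Fin.sum_univ_three]

theorem nr_tri (a b c : R3) : nr (a - c) ≤ nr (a - b) + nr (b - c) := by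
  rw [nr_eq, nr_eq, nr_eq, WithLp.toLp_sub, WithLp.toLp_sub, WithLp.toLp_sub]
  exact norm_sub_le_norm_sub_add_norm_sub _ _ _

theorem nr_comm (a b : R3) : nr (a - b) = nr (b - a) := by
  rw [nr_eq, nr_eq, WithLp.toLp_sub, WithLp.toLp_sub, norm_sub_rev]

theorem nr_nonneg (y : R3) : 0 ≤ nr y := Real.sqrt_nonneg _

theorem nr_cont : Continuous nr := by
  unfold nr
  fun_prop

theorem norm_le_nr (y : R3) : ‖y‖ ≤ nr y := by
  rw [pi_norm_le_iff_of_nonneg (nr_nonneg y)]
  intro i
  rw [Real.norm_eq_abs, nr]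
  apply Real.abs_le_sqrt
  fin_cases i <;> simp <;> nlinarith [sq_nonneg (y 0), sq_nonneg (y 1), sq_nonneg (y 2)]

theorem pd_cd {g : R3 → ℝ} (hg : ContDiff ℝ (⊤ : ℕ∞) g) (i : Fin 3) :
    ContDiff ℝ (⊤ : ℕ∞) (pd i g) := by
  unfold pd
  exact (hg.fderiv_right (by simp)).clm_apply contDiff_const

theorem pd_comm {g : R3 → ℝ} (hg : ContDiff ℝ (⊤ : ℕ∞) g) (i j : Fin 3) :
    pd i (pd j g) = pd j (pd i g) := by
  funext x
  have hd : DifferentiableAt ℝ (fderiv ℝ g) x :=
    ((hg.fderiv_right (m := (⊤ : ℕ∞)) (by norm_num)).differentiable (by norm_num)) x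
  have h1 : ∀ (a b : R3), fderiv ℝ (fun y => fderiv ℝ g y a) x b = fderiv ℝ (fderiv ℝ g) x b a := by
    intro a b
    rw [fderiv_clm_apply hd (differentiableAt_const a)]
    simp
  have hs : IsSymmSndFDerivAt ℝ g x := by
    apply (hg.contDiffAt (x := x)).isSymmSndFDerivAt
    rw [minSmoothness_of_isRCLikeNormedField]
    exact WithTop.coe_le_coe.2 (le_top : (2 : ℕ∞) ≤ ⊤)
  show fderiv ℝ (fun y => fderiv ℝ g y (Pi.single j 1)) x (Pi.single i 1) =
    fderiv ℝ (fun y => fderiv ℝ g y (Pi.single i 1)) x (Pi.single j 1)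
  rw [h1, h1]
  exact hs _ _

theorem pd_lin {ι : Type} [Fintype ι] (c : ι → ℝ) (p : ι → R3) {F : R3 → ℝ}
    (hF : ContDiff ℝ (⊤ : ℕ∞) F) (i : Fin 3) :
    pd i (fun w => ∑ a, c a * F (w - p a)) = fun w => ∑ a, c a * pd i F (w - p a) := by
  funext w
  have hd : ∀ a, DifferentiableAt ℝ (fun w => F (w - p a)) w := fun a =>
    ((hF.differentiable (by simp)).comp (differentiable_id.sub_const _)) w
  show fderiv ℝ (fun w => ∑ a, c a * F (w - p a)) w (Pi.single i 1) = _
  rw [fderiv_fun_sum (fun a _ => (hd a).const_mul (c a)), sum_apply]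
  refine Finset.sum_congr rfl fun a _ => ?_
  rw [fderiv_const_mul (hd a), fderiv_comp_sub]
  rfl

theorem cd_lin {ι : Type} [Fintype ι] (c : ι → ℝ) (p : ι → R3) {F : R3 → ℝ}
    (hF : ContDiff ℝ (⊤ : ℕ∞) F) :
    ContDiff ℝ (⊤ : ℕ∞) (fun w => ∑ a, c a * F (w - p a)) := by
  refine ContDiff.sum fun a _ => contDiff_const.mul (hF.comp (contDiff_id.sub contDiff_const))

theorem lap_lin {ι : Type} [Fintype ι] (c : ι → ℝ) (p : ι → R3) {F : R3 → ℝ}
    (hF : ContDiff ℝ (⊤ : ℕ∞) F) (w : R3) :
    lap (fun w => ∑ a, c a * F (w - p a)) w = ∑ a, c a * lap F (w - p a) := by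
  unfold lap
  have h : ∀ i : Fin 3, pd i (pd i (fun w => ∑ a, c a * F (w - p a))) w =
      ∑ a, c a * pd i (pd i F) (w - p a) := by
    intro i
    rw [pd_lin c p hF i, pd_lin c p (pd_cd hF i) i]
  rw [Finset.sum_congr rfl fun i _ => h i, Finset.sum_comm]
  refine Finset.sum_congr rfl fun a _ => ?_
  rw [Finset.mul_sum]

theorem lap_pd {F : R3 → ℝ} (hF : ContDiff ℝ (⊤ : ℕ∞) F) (m : Fin 3) (y : R3) :
    lap (pd m F) y = pd m (lap F) y := by
  have h : ∀ i : Fin 3, pd i (pd i (pd m F)) = pd m (pd i (pd i F)) := by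
    intro i
    rw [pd_comm hF i m, pd_comm (pd_cd hF i) i m]
  have hd : ∀ i : Fin 3, DifferentiableAt ℝ (pd i (pd i F)) y := fun i =>
    ((pd_cd (pd_cd hF i) i).differentiable (by simp)) y
  unfold lap
  rw [Finset.sum_congr rfl fun i _ => congrFun (h i) y]
  show _ = fderiv ℝ (fun y => ∑ i, pd i (pd i F) y) y (Pi.single m 1)
  rw [fderiv_fun_sum (fun i _ => hd i), sum_apply]
  rfl

/-- Cauchy-Schwarz with a weight. -/
theorem cs_weight {f g : R3 → ℝ} (hf : Continuous f) (hg : Continuous g)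
    (hgc : HasCompactSupport g) (hg0 : ∀ w, 0 ≤ g w) {κ : ℝ} (hκ : 0 < κ) (hint : ∫ w, g w = κ) :
    (∫ w, f w * g w) ^ 2 ≤ κ * ∫ w, f w ^ 2 * g w := by
  have i0 : Integrable g := hg.integrable_of_hasCompactSupport hgc
  have i1 : Integrable (fun w => f w * g w) :=
    (hf.mul hg).integrable_of_hasCompactSupport hgc.mul_left
  have i2 : Integrable (fun w => f w ^ 2 * g w) :=
    ((hf.pow 2).mul hg).integrable_of_hasCompactSupport hgc.mul_left
  set t : ℝ := (∫ w, f w * g w) / κ with ht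
  have h1 : 0 ≤ ∫ w, (f w - t) ^ 2 * g w :=
    integral_nonneg fun w => mul_nonneg (sq_nonneg _) (hg0 w)
  have h2 : ∫ w, (f w - t) ^ 2 * g w =
      (∫ w, f w ^ 2 * g w) - 2 * t * (∫ w, f w * g w) + t ^ 2 * κ := by
    have h3 : ∀ w, (f w - t) ^ 2 * g w = f w ^ 2 * g w - 2 * t * (f w * g w) + t ^ 2 * g w := by
      intro w; ring
    simp_rw [h3]
    have e5 : ∫ w, (f w ^ 2 * g w - 2 * t * (f w * g w) + t ^ 2 * g w) =
        (∫ w, (f w ^ 2 * g w - 2 * t * (f w * g w))) + ∫ w, t ^ 2 * g w :=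
      integral_add (i2.sub (i1.const_mul _)) (i0.const_mul _)
    have e6 : ∫ w, (f w ^ 2 * g w - 2 * t * (f w * g w)) =
        (∫ w, f w ^ 2 * g w) - ∫ w, 2 * t * (f w * g w) := integral_sub i2 (i1.const_mul _)
    rw [e5, e6, integral_const_mul, integral_const_mul, hint]
  rw [h2] at h1
  have h4 : (∫ w, f w * g w) = t * κ := by
    rw [ht]; field_simp
  rw [h4] at h1 ⊢
  nlinarith

theorem FFX (h1 : ST_MVP) (h2 : ST_PHA) (h3 : ST_PHB) (h4 : ST_PHC) (h5 : ST_NBX)
    (h6 : ST_DEX) : ST_FFX := by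
  obtain ⟨C0, hC0, hNB0⟩ := h5
  obtain ⟨hcb, hkap, ⟨C1, hC1, hetb⟩, hPHC⟩ := h4
  refine ⟨262144 * (C0 + 1) + 128 * C1, by positivity, ?_⟩
  intro d n M X Z x hd1 hS hZ1
  have hd : 0 < d := by linarith
  have hZ : ∀ j, 0 ≤ Z j := fun j => by rw [hZ1 j]; norm_num
  have hZz : ∀ j, Z j ≤ 1 := fun j => (hZ1 j).le
  have hNB' := hNB0 d n M X Z x hd1 hS hZ1
  obtain ⟨b, hb⟩ : ∃ b : ℝ, b = d / 8 := ⟨_, rfl⟩
  have hb0 : 0 < b := by rw [hb]; positivity
  have hbd : b = d / 8 := hb
  obtain ⟨a, ha⟩ : ∃ a : ℝ, a = d / 4 := ⟨_, rfl⟩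
  have ha0 : 0 < a := by rw [ha]; positivity
  obtain ⟨C', hC'⟩ : ∃ C' : ℝ, C' = C1 / a ^ 3 := ⟨_, rfl⟩
  have hC'0 : 0 < C' := by rw [hC']; positivity
  obtain ⟨hphs, -, -, -, -⟩ := h2 b hb0
  obtain ⟨hlapph, hpdb, -, hpdfar⟩ := h3 b hb0
  obtain ⟨-, -, hetz, -, -, -⟩ := hPHC b hb0
  obtain ⟨has, hann, haz, -, -, haint⟩ := hPHC a ha0
  rw [← hbd] at hNB' ⊢
  obtain ⟨hFint, -⟩ := h6 b n M X Z x hb0
  -- sources
  let p : Fin n ⊕ Fin M → R3 := Sum.elim x X
  let c0 : Fin n ⊕ Fin M → ℝ := Sum.elim (fun _ => 1) (fun j => -Z j)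
  let c : Fin M → Fin n ⊕ Fin M → ℝ := fun i =>
    Sum.elim (fun l => if nr (x l - X i) < 3 / 2 * d then 0 else -1)
      (fun j => if j = i then 0 else Z j)
  have hPt : Pt b X Z x = fun w => ∑ a, c0 a * ph b (w - p a) := by
    funext w
    simp only [Pt, Fintype.sum_sum_type, c0, p, Sum.elim_inl, Sum.elim_inr, one_mul, neg_mul,
      Finset.sum_neg_distrib, sub_eq_add_neg]
  have hpdPt : ∀ m, pd m (Pt b X Z x) = fun w => ∑ a, c0 a * pd m (ph b) (w - p a) := by
    intro m
    rw [hPt, pd_lin c0 p hphs m]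
  have hPtc : ∀ m, Continuous (pd m (Pt b X Z x)) := by
    intro m
    rw [hpdPt m]
    exact (cd_lin c0 p (pd_cd hphs m)).continuous
  -- the far field, smeared
  let h : Fin M → Fin 3 → R3 → ℝ := fun i m w => ∑ a, c i a * pd m (ph b) (w - p a)
  have hsm : ∀ i m, ContDiff ℝ (⊤ : ℕ∞) (h i m) := fun i m => cd_lin (c i) p (pd_cd hphs m)
  have hfar : ∀ (i : Fin M) (w : R3), nr (w - X i) ≤ 5 / 4 * d → ∀ a, c i a ≠ 0 →
      b < nr (w - p a) := by
    intro i w hw a hca
    rcases a with l | j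
    · simp only [c, Sum.elim_inl, ne_eq, ite_eq_left_iff, not_forall] at hca
      obtain ⟨hl, -⟩ := hca
      rw [not_lt] at hl
      have e1 := nr_tri (x l) w (X i)
      rw [nr_comm (x l) w] at e1
      simp only [p, Sum.elim_inl]
      linarith
    · simp only [c, Sum.elim_inr, ne_eq, ite_eq_left_iff, not_forall] at hca
      obtain ⟨hj, -⟩ := hca
      have e1 := nr_tri (X j) w (X i)
      rw [nr_comm (X j) w] at e1
      have e2 := hS j i hj
      simp only [p, Sum.elim_inr]
      linarith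
  have hlapz : ∀ (m : Fin 3) (y : R3), b < nr y → lap (pd m (ph b)) y = 0 := by
    intro m y hy
    rw [lap_pd hphs m y]
    have e1 : lap (ph b) =ᶠ[nhds y] fun _ => (0 : ℝ) := by
      have e2 : ∀ᶠ v in nhds y, b < nr v := nr_cont.continuousAt.eventually (lt_mem_nhds hy)
      filter_upwards [e2] with v hv
      rw [hlapph v, hetz v hv.le, neg_zero]
    show fderiv ℝ (lap (ph b)) y (Pi.single m 1) = 0
    rw [e1.fderiv_eq]
    simp
  have hlap : ∀ (i : Fin M) (m : Fin 3) (w : R3), nr (w - X i) ≤ 5 / 4 * d →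
      lap (h i m) w = 0 := by
    intro i m w hw
    show lap (fun w => ∑ a, c i a * pd m (ph b) (w - p a)) w = 0
    rw [lap_lin (c i) p (pd_cd hphs m) w]
    refine Finset.sum_eq_zero fun a _ => ?_
    by_cases hca : c i a = 0
    · rw [hca, zero_mul]
    · rw [hlapz m _ (hfar i w hw a hca), mul_zero]
  have hfarE : ∀ (i : Fin M) (m : Fin 3) (y : R3), nr (y - X i) ≤ d →
      farE d X Z x i m y = h i m y := by
    intro i m y hy
    have hy' : nr (y - X i) ≤ 5 / 4 * d := by linarith
    show _ = ∑ a, c i a * pd m (ph b) (y - p a)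
    rw [Fintype.sum_sum_type]
    unfold farE
    rw [sub_eq_add_neg, ← Finset.sum_neg_distrib]
    congr 1
    · refine Finset.sum_congr rfl fun l _ => ?_
      by_cases hl : nr (x l - X i) < 3 / 2 * d
      · simp only [c, Sum.elim_inl, hl, if_true, zero_mul]
      · have e1 : b ≤ nr (y - x l) := (hfar i y hy' (Sum.inl l) (by
          simp only [c, Sum.elim_inl, hl, if_false]; norm_num)).le
        simp only [c, p, Sum.elim_inl, hl, if_false]
        rw [hpdfar m _ e1]
        simp only [Pi.sub_apply]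
        ring
    · refine Finset.sum_congr rfl fun j _ => ?_
      by_cases hj : j = i
      · simp only [c, Sum.elim_inr, hj, if_true, zero_mul, neg_zero]
      · by_cases hZj : Z j = 0
        · simp only [c, Sum.elim_inr, hj, if_false, hZj, zero_mul, neg_zero]
        · have e1 : b ≤ nr (y - X j) := (hfar i y hy' (Sum.inr j) (by
            simp only [c, Sum.elim_inr, hj, if_false]; exact hZj)).le
          simp only [c, p, Sum.elim_inr, hj, if_false]
          rw [hpdfar m _ e1]
          simp only [Pi.sub_apply]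
          ring
  -- the local field energy
  let F : Fin M → ℝ := fun i => ∫ w, (if nr (w - X i) ≤ 5 / 4 * d then
    ∑ m, pd m (Pt b X Z x) w ^ 2 else 0)
  have hFi : ∀ i : Fin M, Integrable (fun w => if nr (w - X i) ≤ 5 / 4 * d then
      ∑ m, pd m (Pt b X Z x) w ^ 2 else 0) := by
    intro i
    have hms : MeasurableSet {w : R3 | nr (w - X i) ≤ 5 / 4 * d} :=
      (isClosed_le (nr_cont.comp (continuous_id.sub continuous_const))
        continuous_const).measurableSet
    have e1 := hFint.indicator hms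
    refine e1.congr (Eventually.of_forall fun w => ?_)
    simp only [Set.indicator, Set.mem_ofPred_eq]
  have hF0 : ∀ i, 0 ≤ F i := fun i => integral_nonneg fun w => by
    by_cases hw : nr (w - X i) ≤ 5 / 4 * d
    · simp only [hw, if_true, Pi.zero_apply]; positivity
    · simp only [hw, if_false, Pi.zero_apply, le_refl]
  have hFsum : ∑ i, F i ≤ kap * Dn b X Z x := by
    have e1 : kap * Dn b X Z x = ∫ w, ∑ m, pd m (Pt b X Z x) w ^ 2 := by
      unfold Dn
      rw [← mul_assoc, mul_one_div_cancel hkap.ne', one_mul]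
    rw [e1]
    show ∑ i, ∫ w, (if nr (w - X i) ≤ 5 / 4 * d then
      ∑ m, pd m (Pt b X Z x) w ^ 2 else 0) ≤ _
    rw [← integral_finsetSum _ fun i _ => hFi i]
    refine integral_mono (integrable_finsetSum _ fun i _ => hFi i) hFint fun w => ?_
    simp only
    have hq : 0 ≤ ∑ m, pd m (Pt b X Z x) w ^ 2 := by positivity
    by_cases hex : ∃ i, nr (w - X i) ≤ 5 / 4 * d
    · obtain ⟨i, hi⟩ := hex
      rw [Finset.sum_eq_single i]
      · rw [if_pos hi]
      · intro j _ hj
        rw [if_neg]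
        intro hj'
        have e2 := nr_tri (X j) w (X i)
        rw [nr_comm (X j) w] at e2
        have e3 := hS j i hj
        linarith
      · intro hi'
        exact absurd (Finset.mem_univ i) hi'
    · push Not at hex
      rw [Finset.sum_eq_zero fun i _ => if_neg (not_le.2 (hex i))]
      exact hq
  have hDn : 0 ≤ Dn b X Z x := by
    have e1 : 0 ≤ kap * Dn b X Z x := le_trans (Finset.sum_nonneg fun i _ => hF0 i) hFsum
    exact nonneg_of_mul_nonneg_right e1 hkap
  have hcnt0 : ∀ i, 0 ≤ cnt X (3 / 2 * d) x i := by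
    intro i
    refine Finset.sum_nonneg fun k _ => ?_
    split_ifs <;> norm_num
  refine ⟨fun i => (cnt X (3 / 2 * d) x i + 1) * (4 / b ^ 2) + Real.sqrt (kap * (C' * F i)) / kap,
    ?_, ?_⟩
  · intro i m y hy
    rw [hfarE i m y hy]
    -- the weight
    let g : R3 → ℝ := fun w => et a (w - y)
    have hgc : Continuous g := has.continuous.comp (continuous_id.sub continuous_const)
    have hg0 : ∀ w, 0 ≤ g w := fun w => hann _
    have hgz : ∀ w, a ≤ nr (w - y) → g w = 0 := fun w hw => haz _ hw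
    have hgs : HasCompactSupport g := by
      refine HasCompactSupport.of_support_subset_isCompact (isCompact_closedBall y a) ?_
      intro w hw
      rw [Metric.mem_closedBall, dist_eq_norm]
      by_contra hcon
      exact hw (hgz w (le_trans (not_le.1 hcon).le (norm_le_nr _)))
    have hgi : ∫ w, g w = kap := by
      show ∫ w, et a (w - y) = kap
      rw [integral_sub_right_eq_self (fun w => et a w) y]
      exact haint
    have hmv : ∫ w, h i m w * g w = kap * h i m y :=
      (h1 (h i m) y a (hsm i m) ha0).1 (fun w hw => hlap i m w (by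
        have := nr_tri w y (X i)
        rw [ha] at hw
        linarith))
    -- the near part
    let N : R3 → ℝ := fun w => ∑ a, (c i a + c0 a) * pd m (ph b) (w - p a)
    have hNc : Continuous N := (cd_lin _ p (pd_cd hphs m)).continuous
    have hsplit : ∀ w, h i m w = N w - pd m (Pt b X Z x) w := by
      intro w
      rw [hpdPt m]
      show ∑ a, c i a * pd m (ph b) (w - p a) = (∑ a, (c i a + c0 a) * pd m (ph b) (w - p a)) -
        ∑ a, c0 a * pd m (ph b) (w - p a)
      rw [← Finset.sum_sub_distrib]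
      exact Finset.sum_congr rfl fun a _ => by ring
    have hNb : ∀ w, |N w| ≤ (cnt X (3 / 2 * d) x i + 1) * (4 / b ^ 2) := by
      intro w
      have e1 : |N w| ≤ ∑ a, |c i a + c0 a| * (4 / b ^ 2) := by
        refine le_trans (Finset.abs_sum_le_sum_abs _ _) (Finset.sum_le_sum fun a _ => ?_)
        rw [abs_mul]
        exact mul_le_mul_of_nonneg_left (hpdb m _) (abs_nonneg _)
      refine le_trans e1 ?_
      rw [← Finset.sum_mul]
      refine mul_le_mul_of_nonneg_right ?_ (by positivity)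
      rw [Fintype.sum_sum_type]
      refine add_le_add (le_of_eq ?_) ?_
      · unfold cnt
        refine Finset.sum_congr rfl fun l _ => ?_
        by_cases hl : nr (x l - X i) < 3 / 2 * d
        · simp only [c, c0, Sum.elim_inl, hl, if_true]; norm_num
        · simp only [c, c0, Sum.elim_inl, hl, if_false]; norm_num
      · rw [Finset.sum_eq_single i]
        · simp only [c, c0, Sum.elim_inr, if_true, zero_add, abs_neg]
          rw [abs_of_nonneg (hZ i)]
          exact hZz i
        · intro j _ hj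
          simp only [c, c0, Sum.elim_inr, hj, if_false]
          rw [add_neg_cancel, abs_zero]
        · intro hi'
          exact absurd (Finset.mem_univ i) hi'
    have iN : Integrable (fun w => N w * g w) :=
      (hNc.mul hgc).integrable_of_hasCompactSupport hgs.mul_left
    have iP : Integrable (fun w => pd m (Pt b X Z x) w * g w) :=
      ((hPtc m).mul hgc).integrable_of_hasCompactSupport hgs.mul_left
    have hsum : kap * h i m y = (∫ w, N w * g w) - ∫ w, pd m (Pt b X Z x) w * g w := by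
      rw [← hmv, ← integral_sub iN iP]
      refine integral_congr_ae (Eventually.of_forall fun w => ?_)
      simp only [hsplit w]
      ring
    have hI1 : |∫ w, N w * g w| ≤ (cnt X (3 / 2 * d) x i + 1) * (4 / b ^ 2) * kap := by
      rw [← hgi, ← integral_const_mul, ← Real.norm_eq_abs]
      refine norm_integral_le_of_norm_le
        ((hgc.integrable_of_hasCompactSupport hgs).const_mul _) (Eventually.of_forall fun w => ?_)
      rw [Real.norm_eq_abs, abs_mul, abs_of_nonneg (hg0 w)]
      exact mul_le_mul_of_nonneg_right (hNb w) (hg0 w)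
    have hI2 : (∫ w, pd m (Pt b X Z x) w * g w) ^ 2 ≤ kap * (C' * F i) := by
      refine le_trans (cs_weight (hPtc m) hgc hgs hg0 hkap hgi) ?_
      refine mul_le_mul_of_nonneg_left ?_ hkap.le
      rw [← integral_const_mul]
      refine integral_mono_of_nonneg
        (Eventually.of_forall fun w => mul_nonneg (sq_nonneg _) (hg0 w))
        ((hFi i).const_mul C') (Eventually.of_forall fun w => ?_)
      simp only
      by_cases hw : nr (w - y) < a
      · have e1 : nr (w - X i) ≤ 5 / 4 * d := by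
          have := nr_tri w y (X i)
          rw [ha] at hw
          linarith
        rw [if_pos e1, mul_comm]
        refine mul_le_mul ?_ ?_ (sq_nonneg _) hC'0.le
        · rw [hC']; exact hetb a _ ha0
        · exact Finset.single_le_sum (f := fun m => pd m (Pt b X Z x) w ^ 2)
            (fun m _ => sq_nonneg _) (Finset.mem_univ m)
      · rw [hgz w (not_lt.1 hw), mul_zero]
        by_cases hw' : nr (w - X i) ≤ 5 / 4 * d
        · rw [if_pos hw']; positivity
        · rw [if_neg hw', mul_zero]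
    have hI3 : |∫ w, pd m (Pt b X Z x) w * g w| ≤ Real.sqrt (kap * (C' * F i)) :=
      Real.abs_le_sqrt hI2
    have hfin : kap * |h i m y| ≤ (cnt X (3 / 2 * d) x i + 1) * (4 / b ^ 2) * kap +
        Real.sqrt (kap * (C' * F i)) := by
      rw [← abs_of_pos hkap, ← abs_mul, abs_of_pos hkap, hsum]
      exact le_trans (abs_sub _ _) (add_le_add hI1 hI3)
    have e9 : |h i m y| = kap * |h i m y| / kap := by field_simp
    rw [e9, div_le_iff₀ hkap]
    refine le_trans hfin (le_of_eq ?_)
    field_simp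
  · have hb4 : (0 : ℝ) < 16 / b ^ 4 := by positivity
    have hterm : ∀ i, ((cnt X (3 / 2 * d) x i + 1) * (4 / b ^ 2) +
        Real.sqrt (kap * (C' * F i)) / kap) ^ 2 ≤
        64 / b ^ 4 * (cnt X (3 / 2 * d) x i ^ 2) + 64 / b ^ 4 * 1 ^ 2 + 2 * C' / kap * F i := by
      intro i
      have e1 : (Real.sqrt (kap * (C' * F i)) / kap) ^ 2 = C' / kap * F i := by
        rw [div_pow, Real.sq_sqrt (mul_nonneg hkap.le (mul_nonneg hC'0.le (hF0 i)))]
        field_simp
      have e2 : ((cnt X (3 / 2 * d) x i + 1) * (4 / b ^ 2)) ^ 2 =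
          16 / b ^ 4 * (cnt X (3 / 2 * d) x i + 1) ^ 2 := by
        field_simp
        ring
      have e3 : ∀ u v : ℝ, (u + v) ^ 2 ≤ 2 * u ^ 2 + 2 * v ^ 2 := fun u v => by
        nlinarith [sq_nonneg (u - v)]
      have e4 := e3 ((cnt X (3 / 2 * d) x i + 1) * (4 / b ^ 2))
        (Real.sqrt (kap * (C' * F i)) / kap)
      rw [e1, e2] at e4
      have e5 := mul_le_mul_of_nonneg_left (e3 (cnt X (3 / 2 * d) x i) 1) hb4.le
      have e6 : 64 / b ^ 4 = 4 * (16 / b ^ 4) := by ring
      have e7 : 2 * C' / kap * F i = 2 * (C' / kap * F i) := by ring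
      rw [e6, e7]
      nlinarith
    have e8 : ∑ i, (64 / b ^ 4 * (cnt X (3 / 2 * d) x i ^ 2) + 64 / b ^ 4 * 1 ^ 2 +
        2 * C' / kap * F i) = 64 / b ^ 4 * ∑ i, cnt X (3 / 2 * d) x i ^ 2 +
        M * (64 / b ^ 4 * 1 ^ 2) + 2 * C' / kap * ∑ i, F i := by
      rw [Finset.sum_add_distrib, Finset.sum_add_distrib, Finset.sum_const, Finset.card_univ,
        Fintype.card_fin, nsmul_eq_mul, Finset.mul_sum, Finset.mul_sum]
    refine le_trans (Finset.sum_le_sum fun i _ => hterm i) ?_
    rw [e8]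
    have e10 : 2 * C' / kap * ∑ i, F i ≤ 2 * C' * Dn b X Z x := by
      have := mul_le_mul_of_nonneg_left hFsum (show 0 ≤ 2 * C' / kap by positivity)
      refine le_trans this (le_of_eq ?_)
      field_simp
    have e11 : 64 / b ^ 4 * ∑ i, cnt X (3 / 2 * d) x i ^ 2 ≤
        64 / b ^ 4 * (C0 * (M + d * Dn b X Z x)) :=
      mul_le_mul_of_nonneg_left hNB' (by positivity)
    have hM : (0 : ℝ) ≤ M := Nat.cast_nonneg M
    have f1 : 64 / b ^ 4 * (C0 * (M + d * Dn b X Z x)) =
        262144 * C0 * (M / d ^ 4) + 262144 * C0 * (Dn b X Z x / d ^ 3) := by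
      generalize Dn b X Z x = D
      rw [hb]
      field_simp
      ring
    have f2 : (M : ℝ) * (64 / b ^ 4 * 1 ^ 2) = 262144 * (M / d ^ 4) := by
      rw [hb]
      field_simp
      ring
    have f3 : 2 * C' * Dn b X Z x = 128 * C1 * (Dn b X Z x / d ^ 3) := by
      generalize Dn b X Z x = D
      rw [hC', ha]
      field_simp
      ring
    have e12 : 0 ≤ Dn b X Z x / d ^ 3 := by positivity
    have e13 : 0 ≤ (M : ℝ) / d ^ 4 := by positivity
    have e14 : 0 ≤ C1 * ((M : ℝ) / d ^ 4) := by positivity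
    have e15 : (262144 * (C0 + 1) + 128 * C1) * (M / d ^ 4 + Dn b X Z x / d ^ 3) =
        262144 * C0 * (M / d ^ 4) + 262144 * C0 * (Dn b X Z x / d ^ 3) + 262144 * (M / d ^ 4) +
        262144 * (Dn b X Z x / d ^ 3) + 128 * (C1 * (M / d ^ 4)) +
        128 * C1 * (Dn b X Z x / d ^ 3) := by ring
    rw [e15]
    linarith

end Pool.Agent.Helper64.HS
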